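import Pool.Agent.EG.RSQ.QLinkH

/-!
# EG RSQ QLinkR: two cells in different charts, quantitative version of `RS/LinkR.lean`
-/

set_option autoImplicit false

open Topology Filter Metric Set

namespace Pool.Agent.EG.RSQ

open Pool.Agent.EG.RS

variable {ι Y : Type}

private theorem QLR_yb_cont (b : ℕ) : Continuous (yb b) := by
  unfold yb
  by_cases hb : b = 0
  · simp only [hb, if_true]; exact continuous_id
  · simp only [hb, if_false]; exact Complex.continuous_exp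

private theorem QLR_root_const {S : Set (ℂ × ℂ)} (hS : IsPreconnected S) {R : ℂ × ℂ → ℂ} (hc : ContinuousOn R S) {n : ℕ}
    (hn : 1 ≤ n) (hR : ∀ x ∈ S, R x ^ n = 1) {x y : ℂ × ℂ} (hx : x ∈ S) (hy : y ∈ S) : R x = R y := by
  have hfin : ({z : ℂ | z ^ n = 1} : Set ℂ).Finite := by
    have h : ({z : ℂ | z ^ n = 1} : Set ℂ) ⊆ ((Polynomial.nthRoots n (1 : ℂ)).toFinset : Set ℂ) := by
      intro z hz
      simp only [Set.mem_ofPred_eq] at hz
      simp only [Finset.mem_coe, Multiset.mem_toFinset]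
      exact (Polynomial.mem_nthRoots (by omega)).2 hz
    exact (Finset.finite_toSet _).subset h
  have hf : Finite ({z : ℂ | z ^ n = 1} : Set ℂ) := hfin.to_subtype
  have hd : DiscreteTopology ({z : ℂ | z ^ n = 1} : Set ℂ) := inferInstance
  exact hS.constant_of_mapsTo (isDiscrete_iff_discreteTopology.2 hd) hc (fun z hz => hR z hz) hx hy

private theorem QLR_strip_convex (t₀ : ℂ) (ε : ℝ) : Convex ℝ (Strip t₀ ε) := by
  have h : Strip t₀ ε = {t : ℂ | t.re < t₀.re + ε} ∩ ({t : ℂ | t.im < t₀.im + ε} ∩ {t : ℂ | t₀.im - ε < t.im}) := by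
    ext t
    simp only [Strip, Set.mem_ofPred_eq, mem_inter_iff, abs_lt]
    constructor
    · rintro ⟨h1, h2, h3⟩; exact ⟨h1, by linarith, by linarith⟩
    · rintro ⟨h1, h2, h3⟩; exact ⟨h1, by linarith, by linarith⟩
  rw [h]
  exact (convex_halfSpace_re_lt _).inter ((convex_halfSpace_im_lt _).inter (convex_halfSpace_im_gt _))

/-- the map `(t, h) ↦ X j ν t h` stays near `q` -/
private theorem QLR_near (M : Model ι Y) {j : ι} {ν t₀ h₁ : ℂ} {η ε : ℝ} (hη : 0 < η) (hq : ‖(M.X j ν t₀ h₁).1‖ ≤ η / 4) (hε : 0 < ε)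
    (e2 : Real.exp (ε * (1 + M.b j)) ≤ 2) (e3 : ∀ h ∈ ball h₁ ε, dist (yb (M.b j) h) (yb (M.b j) h₁) < η)
    {t h : ℂ} (ht : t ∈ Strip t₀ ε) (hh : h ∈ ball h₁ ε) : M.X j ν t h ∈ ball (M.X j ν t₀ h₁) η := by
  have ha : (1 : ℝ) ≤ M.a j := by exact_mod_cast M.a_pos j
  have ha0 : (M.a j : ℂ) ≠ 0 := by
    have := M.a_pos j
    exact_mod_cast (by omega : M.a j ≠ 0)
  rw [mem_ball, Prod.dist_eq, max_lt_iff]
  constructor
  · have hx : (M.X j ν t h).1 = (M.X j ν t₀ h₁).1 * Complex.exp (((t - t₀) - M.b j * (h - h₁)) / M.a j) := by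
      simp only [Atl.X]
      rw [mul_assoc, ← Complex.exp_add]
      congr 2
      field_simp
      ring
    have hre : ((((t - t₀) - M.b j * (h - h₁)) / M.a j : ℂ)).re ≤ ε * (1 + M.b j) := by
      have h1 : ((((t - t₀) - M.b j * (h - h₁)) / M.a j : ℂ)).re = ((t.re - t₀.re) - M.b j * (h.re - h₁.re)) / M.a j := by
        rw [show ((M.a j : ℕ) : ℂ) = (((M.a j : ℕ) : ℝ) : ℂ) by push_cast; rfl, Complex.div_ofReal_re]
        simp
      rw [h1]
      have h2 : |h.re - h₁.re| ≤ ε := by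
        have : ‖h - h₁‖ < ε := by simpa [dist_eq_norm] using hh
        have h3 := Complex.abs_re_le_norm (h - h₁)
        simp only [Complex.sub_re] at h3
        linarith
      have h4 : (t.re - t₀.re) - M.b j * (h.re - h₁.re) ≤ ε * (1 + M.b j) := by
        have hb : (0 : ℝ) ≤ M.b j := Nat.cast_nonneg _
        have h5 : t.re - t₀.re ≤ ε := by have := ht.1; linarith
        have h6 : -(M.b j * (h.re - h₁.re)) ≤ M.b j * ε := by
          have := abs_le.1 h2
          nlinarith [this.1, this.2]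
        linarith
      have h7 : (0 : ℝ) ≤ ε * (1 + M.b j) := by positivity
      rw [div_le_iff₀ (by linarith)]
      nlinarith
    have hn : ‖(M.X j ν t h).1‖ ≤ η / 2 := by
      rw [hx, norm_mul, Complex.norm_exp]
      calc _ ≤ (η / 4) * 2 := by
            apply mul_le_mul hq _ (Real.exp_nonneg _) (by positivity)
            exact (Real.exp_le_exp.2 hre).trans e2
        _ = η / 2 := by ring
    rw [dist_eq_norm]
    calc _ ≤ ‖(M.X j ν t h).1‖ + ‖(M.X j ν t₀ h₁).1‖ := norm_sub_le _ _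
      _ ≤ η / 2 + η / 4 := add_le_add hn hq
      _ < η := by linarith
  · exact e3 h hh

theorem link_regQ (M : Model ι Y) {C₀ : ℝ} (hB : Bphi M C₀) {i j : ι} {μ ν t₀ h₀ h₁ : ℂ} {ε : ℝ} (e0 : 0 < ε)
    (e1 : Real.exp (t₀.re + ε) ≤ M.ρ) (e2 : Real.exp (ε * (1 + M.b j)) ≤ 2)
    (e3 : ∀ h ∈ ball h₁ ε, dist (yb (M.b j) h) (yb (M.b j) h₁) < M.η) (hμ : M.k i * μ ^ M.a i = 1) (hν : M.k j * ν ^ M.a j = 1)
    (hc : Cen (M.X i μ t₀ h₀)) (hc' : Cen (M.X j ν t₀ h₁))
    (hr : M.Rg M.η i j (M.X i μ t₀ h₀) (M.X j ν t₀ h₁)) : LinkQ M i μ j ν t₀ h₀ h₁ ε (2 * C₀) := by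
  obtain ⟨τ, hτq, hτ, hp2, hq2, hq1⟩ := hr
  set p : ℂ × ℂ := M.X i μ t₀ h₀ with hp
  set q : ℂ × ℂ := M.X j ν t₀ h₁ with hq
  have hη := M.η_pos
  have hη4 := M.η_le
  have hnear : ∀ t ∈ Strip t₀ ε, ∀ h ∈ ball h₁ ε, M.X j ν t h ∈ ball q M.η := by
    intro t ht h hh
    exact QLR_near M hη hq1 e0 e2 e3 ht hh
  have ht₀ : t₀ ∈ Strip t₀ ε := ⟨by linarith, by simpa using e0⟩
  have hh₁ : h₁ ∈ ball h₁ ε := mem_ball_self e0
  have hpn : ‖p‖ < 1 := by
    rw [Prod.norm_def, max_lt_iff]; exact ⟨by linarith [hc.1], hc.2⟩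
  have hqn : ‖q‖ < 1 := by
    rw [Prod.norm_def, max_lt_iff]; exact ⟨by linarith [hc'.1], hc'.2⟩
  -- the quotient of the second coordinates
  have hw : 1 ≤ M.b i → ∀ x ∈ ball q M.η, ‖(τ x).2 / p.2 - 1‖ ≤ 1 / 2 := by
    intro hb x hx
    have h1 := hp2 hb
    have hp0 : p.2 ≠ 0 := by
      intro h; rw [h, norm_zero] at h1; norm_num at h1
    have h2 : ‖(τ x).2 - p.2‖ < 1 / 4 := by
      have := (hτ x hx).2.1
      rw [mem_ball, Prod.dist_eq, max_lt_iff] at this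
      rw [← dist_eq_norm]; exact this.2
    have h3 : (τ x).2 / p.2 - 1 = ((τ x).2 - p.2) / p.2 := by field_simp
    rw [h3, norm_div, div_le_iff₀ (by linarith)]
    linarith
  set H : ℂ → ℂ → ℂ := fun t h => if M.b i = 0 then (τ (M.X j ν t h)).2 else h₀ + Complex.log ((τ (M.X j ν t h)).2 / p.2) with hHdef
  have hslit : 1 ≤ M.b i → ∀ x ∈ ball q M.η, (τ x).2 / p.2 ∈ Complex.slitPlane := by
    intro hb x hx
    have h1 := hw hb x hx
    have h2 := Complex.mem_slitPlane_of_norm_lt_one (z := (τ x).2 / p.2 - 1) (by linarith)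
    simpa using h2
  have hyp : yb (M.b i) h₀ = p.2 := rfl
  -- the second coordinates agree
  have hsec : ∀ t ∈ Strip t₀ ε, ∀ h ∈ ball h₁ ε, yb (M.b i) (H t h) = (τ (M.X j ν t h)).2 := by
    intro t ht h hh
    by_cases hb : M.b i = 0
    · simp only [hHdef, hb, yb, if_true]
    · have hb1 : 1 ≤ M.b i := Nat.one_le_iff_ne_zero.2 hb
      have hy : Complex.exp h₀ = p.2 := by rw [← hyp]; simp only [yb, hb, if_false]
      have hp0 : p.2 ≠ 0 := by rw [← hy]; exact Complex.exp_ne_zero _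
      simp only [hHdef, hb, yb, if_false]
      rw [Complex.exp_add, Complex.exp_log (Complex.slitPlane_ne_zero (hslit hb1 _ (hnear t ht h hh))), hy]
      field_simp
  have hXan : ∀ p : ℂ × ℂ, AnalyticAt ℂ (fun p : ℂ × ℂ => M.X j ν p.1 p.2) p := X_an M j ν
  have hτan : ∀ t ∈ Strip t₀ ε, ∀ h ∈ ball h₁ ε, AnalyticAt ℂ (fun p : ℂ × ℂ => τ (M.X j ν p.1 p.2)) (t, h) := by
    intro t ht h hh
    exact AnalyticAt.fun_comp (g := τ) (f := fun p : ℂ × ℂ => M.X j ν p.1 p.2) (x := ((t, h) : ℂ × ℂ)) (hτ _ (hnear t ht h hh)).1 (hXan (t, h))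
  have hHan : ∀ t ∈ Strip t₀ ε, ∀ h ∈ ball h₁ ε, AnalyticAt ℂ (fun p : ℂ × ℂ => H p.1 p.2) (t, h) := by
    intro t ht h hh
    have h2 : AnalyticAt ℂ (fun p : ℂ × ℂ => (τ (M.X j ν p.1 p.2)).2) (t, h) :=
      analyticAt_snd.fun_comp (hτan t ht h hh)
    by_cases hb : M.b i = 0
    · simpa only [hHdef, hb, if_true] using h2
    · have hb1 : 1 ≤ M.b i := Nat.one_le_iff_ne_zero.2 hb
      simp only [hHdef, hb, if_false]
      refine analyticAt_const.add ?_
      exact (h2.div_const).clog (hslit hb1 _ (hnear t ht h hh))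
  have hH₀ : H t₀ h₁ = h₀ := by
    by_cases hb : M.b i = 0
    · simp only [hHdef, hb, if_true]
      rw [← hq, hτq, ← hyp, hb]; simp [yb]
    · have hy : Complex.exp h₀ = p.2 := by rw [← hyp]; simp only [yb, hb, if_false]
      have hp0 : p.2 ≠ 0 := by rw [← hy]; exact Complex.exp_ne_zero _
      simp only [hHdef, hb, if_false]
      rw [← hq, hτq, div_self hp0, Complex.log_one, add_zero]
  -- the first coordinates agree
  have hfst : ∀ t ∈ Strip t₀ ε, ∀ h ∈ ball h₁ ε, (M.X i μ t (H t h)).1 = (τ (M.X j ν t h)).1 := by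
    have hμ0 : μ ≠ 0 := by
      intro h
      have := M.a_pos i
      rw [h, zero_pow (by omega), mul_zero] at hμ
      exact zero_ne_one hμ
    have hA0 : ∀ t h : ℂ, (M.X i μ t h).1 ≠ 0 := by
      intro t h
      simp only [Atl.X]
      exact mul_ne_zero hμ0 (Complex.exp_ne_zero _)
    have hconv : IsPreconnected (Strip t₀ ε ×ˢ ball h₁ ε) :=
      ((QLR_strip_convex t₀ ε).prod (convex_ball h₁ ε)).isPreconnected
    have hcA : ContinuousOn (fun x : ℂ × ℂ => (M.X i μ x.1 (H x.1 x.2)).1) (Strip t₀ ε ×ˢ ball h₁ ε) := by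
      intro x hx
      have h1 : AnalyticAt ℂ (fun x : ℂ × ℂ => (x.1, H x.1 x.2)) x := analyticAt_fst.prod (hHan x.1 hx.1 x.2 hx.2)
      have h2 : AnalyticAt ℂ (fun x : ℂ × ℂ => M.X i μ x.1 (H x.1 x.2)) x :=
        AnalyticAt.fun_comp (f := fun x : ℂ × ℂ => (x.1, H x.1 x.2)) (g := fun x : ℂ × ℂ => M.X i μ x.1 x.2) (X_an M i μ _) h1
      exact (continuous_fst.continuousAt.comp h2.continuousAt).continuousWithinAt
    have hcB : ContinuousOn (fun x : ℂ × ℂ => (τ (M.X j ν x.1 x.2)).1) (Strip t₀ ε ×ˢ ball h₁ ε) := by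
      intro x hx
      exact (continuous_fst.continuousAt.comp (hτan x.1 hx.1 x.2 hx.2).continuousAt).continuousWithinAt
    have hR : ∀ x ∈ Strip t₀ ε ×ˢ ball h₁ ε,
        ((τ (M.X j ν x.1 x.2)).1 / (M.X i μ x.1 (H x.1 x.2)).1) ^ M.a i = 1 := by
      rintro ⟨t, h⟩ ⟨ht, hh⟩
      simp only at ht hh ⊢
      have h1 := u_X M hμ t (H t h)
      have h2 := (hτ _ (hnear t ht h hh)).2.2.2.1
      rw [u_X M hν] at h2
      simp only [Atl.u] at h1 h2
      have h3 : (M.X i μ t (H t h)).2 = (τ (M.X j ν t h)).2 := hsec t ht h hh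
      rw [h3] at h1
      have hE := Complex.exp_ne_zero t
      have hk := k_ne M i
      have hy : (τ (M.X j ν t h)).2 ^ M.b i ≠ 0 := by
        intro h0; rw [h0, mul_zero] at h1; exact hE h1.symm
      have h4 : (τ (M.X j ν t h)).1 ^ M.a i = (M.X i μ t (H t h)).1 ^ M.a i := by
        have h5 : M.k i * (τ (M.X j ν t h)).1 ^ M.a i * (τ (M.X j ν t h)).2 ^ M.b i =
            M.k i * (M.X i μ t (H t h)).1 ^ M.a i * (τ (M.X j ν t h)).2 ^ M.b i := by rw [h1, h2]
        exact mul_left_cancel₀ hk (mul_right_cancel₀ hy h5)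
      rw [div_pow, h4, div_self (pow_ne_zero _ (hA0 _ _))]
    intro t ht h hh
    have h1 : (τ (M.X j ν t h)).1 / (M.X i μ t (H t h)).1 = (τ (M.X j ν t₀ h₁)).1 / (M.X i μ t₀ (H t₀ h₁)).1 :=
      QLR_root_const hconv (hcB.div hcA (fun x hx => hA0 _ _)) (M.a_pos i) hR
        (x := (t, h)) (y := (t₀, h₁)) ⟨ht, hh⟩ ⟨ht₀, hh₁⟩
    rw [hH₀, ← hq, hτq, ← hp, div_self (hA0 t₀ h₀)] at h1
    exact ((div_eq_one_iff_eq (hA0 _ _)).1 h1).symm
  refine link_ofQ M hB (ε := ε) (H := H) (τ := τ) hμ hν e0 e1 hHan hH₀ ?_ ?_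
  · intro t ht
    have hb : ‖H t h₁‖ ≤ ‖h₀‖ + 5 / 4 := by
      have hx := hnear t ht h₁ hh₁
      by_cases hb : M.b i = 0
      · simp only [hHdef, hb, if_true]
        have h1 := (hτ _ hx).2.1
        have h2 : ‖(τ (M.X j ν t h₁)).2‖ ≤ ‖τ (M.X j ν t h₁)‖ := norm_snd_le _
        have h3 : ‖τ (M.X j ν t h₁)‖ ≤ ‖p‖ + 1 / 4 := by
          have h4 : ‖τ (M.X j ν t h₁) - p‖ < 1 / 4 := by rw [← dist_eq_norm]; exact h1
          have h5 := norm_sub_norm_le (τ (M.X j ν t h₁)) p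
          linarith
        have := norm_nonneg h₀
        linarith
      · have hb1 : 1 ≤ M.b i := Nat.one_le_iff_ne_zero.2 hb
        simp only [hHdef, hb, if_false]
        have h1 := Complex.norm_log_one_add_half_le_self (hw hb1 _ hx)
        rw [add_sub_cancel] at h1
        have h2 := hw hb1 _ hx
        have h3 := norm_add_le h₀ (Complex.log ((τ (M.X j ν t h₁)).2 / p.2))
        linarith
    have h0 := norm_nonneg h₀
    have h1 := norm_nonneg (t - t₀)
    linarith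
  · intro t ht h hh
    have hx := hnear t ht h hh
    obtain ⟨h1, h2, h3, h4, h5⟩ := hτ _ hx
    refine ⟨?_, ?_, h1, h3, h5, ?_⟩
    · rw [mem_ball, dist_zero_right]
      have h6 : ‖M.X j ν t h - q‖ < M.η := by rw [← dist_eq_norm]; exact hx
      have h7 := norm_sub_norm_le (M.X j ν t h) q
      linarith
    · rw [mem_ball, dist_zero_right]
      have h6 : ‖τ (M.X j ν t h) - p‖ < 1 / 4 := by rw [← dist_eq_norm]; exact h2
      have h7 := norm_sub_norm_le (τ (M.X j ν t h)) p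
      linarith
    · exact Prod.ext (hfst t ht h hh) (hsec t ht h hh)

end Pool.Agent.EG.RSQ
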