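import Pool.Agent.EG.RSQ.QLinkS
import Pool.Agent.EG.RSQ.QLinkR

/-!
# EG RSQ Q: the quantitative link theorem
-/

set_option autoImplicit false

open Topology Filter Metric Set

namespace Pool.Agent.EG.RSQ

open Pool.Agent.EG.RS

variable {ι Y : Type}

theorem cen_ball {p : ℂ × ℂ} (hp : Cen p) : p ∈ ball (0 : ℂ × ℂ) 2 := by
  rw [mem_ball_zero_iff, Prod.norm_def, max_lt_iff]
  exact ⟨by linarith [hp.1], by linarith [hp.2]⟩

private theorem Q_exp_half : Real.exp (1 / 2) ≤ 2 := by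
  have h := Real.add_one_le_exp (-(1 / 2 : ℝ))
  rw [Real.exp_neg] at h
  have hp := Real.exp_pos (1 / 2 : ℝ)
  have h2 : (1 / 2 : ℝ) ≤ (Real.exp (1 / 2))⁻¹ := by linarith
  have h3 := mul_le_mul_of_nonneg_right h2 hp.le
  rw [inv_mul_cancel₀ hp.ne'] at h3
  linarith

/-- two frozen curves through the same central point are linked on a strip of uniform width, with uniform linear growth -/
theorem linkQ (M : Model ι Y) [Finite ι] {C₀ : ℝ} (hB : Bphi M C₀) :
    ∃ ε : ℝ, 0 < ε ∧ ∀ (i j : ι) (μ ν t₀ h₀ h₁ : ℂ), M.k i * μ ^ M.a i = 1 → M.k j * ν ^ M.a j = 1 → ‖Complex.exp t₀‖ ≤ M.ρ / 2 →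
      Cen (M.X i μ t₀ h₀) → Cen (M.X j ν t₀ h₁) → M.s i (M.X i μ t₀ h₀) = M.s j (M.X j ν t₀ h₁) →
      LinkQ M i μ j ν t₀ h₀ h₁ ε (2 * C₀) := by
  obtain ⟨B, hBb⟩ : ∃ B : ℕ, ∀ i, M.b i ≤ B := by
    have h1 : (Set.range M.b).Finite := Set.finite_range M.b
    obtain ⟨B, hB⟩ := h1.bddAbove
    exact ⟨B, fun i => hB ⟨i, rfl⟩⟩
  have hη := M.η_pos
  have hη4 := M.η_le
  have hBp : (0 : ℝ) < 1 + B := by positivity
  refine ⟨min (1 / (2 * (1 + B))) (M.η / 4), lt_min (by positivity) (by positivity), ?_⟩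
  set ε : ℝ := min (1 / (2 * (1 + B))) (M.η / 4) with hε
  have hε0 : 0 < ε := lt_min (by positivity) (by positivity)
  have hε1 : ε ≤ 1 / (2 * (1 + B)) := min_le_left _ _
  have hε2 : ε ≤ M.η / 4 := min_le_right _ _
  have hεB : ε * (1 + B) ≤ 1 / 2 := by
    have h1 := mul_le_mul_of_nonneg_right hε1 hBp.le
    have h2 : 1 / (2 * (1 + (B : ℝ))) * (1 + B) = 1 / 2 := by field_simp
    linarith
  have hεb : ∀ i, ε * (1 + M.b i) ≤ 1 / 2 := by
    intro i
    have h1 : (M.b i : ℝ) ≤ B := by exact_mod_cast hBb i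
    have h2 := mul_le_mul_of_nonneg_left (by linarith : 1 + (M.b i : ℝ) ≤ 1 + B) hε0.le
    linarith
  have hεh : ε ≤ 1 / 2 := by linarith
  intro i j μ ν t₀ h₀ h₁ hμ hν ht hc hc' h
  have hρ := M.ρ_pos
  have he : Real.exp (t₀.re + ε) ≤ M.ρ := by
    rw [Real.exp_add, ← Complex.norm_exp]
    have h1 : Real.exp ε ≤ 2 := (Real.exp_le_exp.mpr hεh).trans Q_exp_half
    have h2 := Real.exp_pos ε
    have h3 := norm_nonneg (Complex.exp t₀)
    nlinarith
  have hu : M.u i (M.X i μ t₀ h₀) = Complex.exp t₀ := u_X M hμ t₀ h₀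
  rcases M.trans i j _ _ hc hc' h (by rw [hu]; exact Complex.exp_ne_zero _) (by rw [hu]; linarith) with h1 | h1 | h1
  · subst h1
    exact link_sameQ M hB hε0 he (hεb i) hμ hν hc (M.inj i (cen_ball hc) (cen_ball hc') h)
  · refine link_swapQ M hB hε0 he (hεb j) h1 hμ hν hc' ?_
    have h2 := (h1.2.2.2.2 _ (cen_ball hc')).1
    rw [h2] at h
    refine M.inj i (cen_ball hc) ?_ h
    have h3 := cen_ball hc'
    rw [mem_ball_zero_iff, Prod.norm_def, max_lt_iff] at h3 ⊢
    exact ⟨h3.2, h3.1⟩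
  · refine link_regQ M hB hε0 he ?_ ?_ hμ hν hc hc' h1
    · exact (Real.exp_le_exp.mpr (hεb j)).trans Q_exp_half
    · intro h' hh'
      unfold yb
      by_cases hb : M.b j = 0
      · rw [if_pos hb, if_pos hb]
        have := mem_ball.mp hh'
        linarith
      · rw [if_neg hb, if_neg hb]
        have h2 : ‖Complex.exp h₁‖ < 1 := by
          have h3 := hc'.2
          simp only [Atl.X, yb, if_neg hb] at h3
          exact h3
        have h4 : ‖h' - h₁‖ < ε := by rw [← dist_eq_norm]; exact mem_ball.mp hh'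
        have h5 : Complex.exp h' - Complex.exp h₁ = Complex.exp h₁ * (Complex.exp (h' - h₁) - 1) := by
          rw [mul_sub, ← Complex.exp_add]
          ring_nf
        have h6 : ‖Complex.exp (h' - h₁) - 1‖ ≤ 2 * ‖h' - h₁‖ := by
          have := Complex.norm_exp_sub_one_le (x := h' - h₁) (by linarith)
          linarith
        rw [dist_eq_norm, h5, norm_mul]
        have h7 := norm_nonneg (Complex.exp (h' - h₁) - 1)
        nlinarith [norm_nonneg (h' - h₁), norm_nonneg (Complex.exp h₁)]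

end Pool.Agent.EG.RSQ
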