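import Pool.Agent.EG.RS.Prim

/-!
# EG RSQ QDefs: quantitative links

The cells of a model (`RS/Defs.lean`), in the case where the density `phi` is bounded.  `LinkQ`: the difference of the primitives extends to the strip
of width `ε` to the left of `t₀`, with linear growth.
-/

set_option autoImplicit false

open Topology Filter Metric Set

namespace Pool.Agent.EG.RSQ

open Pool.Agent.EG.RS

variable {ι Y : Type}

/-- the densities are bounded by `C₀` -/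
def Bphi (M : Model ι Y) (C₀ : ℝ) : Prop :=
  ∀ i μ t h, M.k i * μ ^ M.a i = 1 → M.X i μ t h ∈ ball (0 : ℂ × ℂ) 2 → ‖Complex.exp t‖ < M.ρ → ‖M.phi i μ t h‖ ≤ C₀

/-- the cells are linked at `t₀`, quantitative version -/
def LinkQ (M : Model ι Y) (i : ι) (μ : ℂ) (j : ι) (ν : ℂ) (t₀ h₀ h₁ : ℂ) (ε C : ℝ) : Prop :=
  ∃ D : ℂ → ℂ, DifferentiableOn ℂ D (Strip t₀ ε) ∧ (∀ t ∈ Strip t₀ ε, ‖D t‖ ≤ C * (1 + ‖t - t₀‖ + ‖h₀‖ + ‖h₁‖)) ∧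
    ∀ hi hj : ℂ → ℂ, AnalyticAt ℂ hi t₀ → AnalyticAt ℂ hj t₀ → hi t₀ = h₀ → hj t₀ = h₁ →
      (∀ᶠ t in 𝓝 t₀, M.s i (M.X i μ t (hi t)) = M.s j (M.X j ν t (hj t))) →
      ∀ᶠ t in 𝓝 t₀, M.P i μ t (hi t) - M.P j ν t (hj t) = D t

/-- near `t₀` the curve `f` (a function of `t`) is the curve `h` in the cell `(i, μ)` -/
def DatE (M : Model ι Y) (f : ℂ → Y) (i : ι) (μ : ℂ) (h : ℂ → ℂ) (t₀ : ℂ) : Prop :=
  M.k i * μ ^ M.a i = 1 ∧ AnalyticAt ℂ h t₀ ∧ Cen (M.X i μ t₀ (h t₀)) ∧ ∀ᶠ t in 𝓝 t₀, f t = M.s i (M.X i μ t (h t))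

theorem Bphi.nonneg {M : Model ι Y} {C₀ : ℝ} (hB : Bphi M C₀) {i : ι} {μ t h : ℂ} (hμ : M.k i * μ ^ M.a i = 1)
    (hX : M.X i μ t h ∈ ball (0 : ℂ × ℂ) 2) (ht : ‖Complex.exp t‖ < M.ρ) : 0 ≤ C₀ :=
  (norm_nonneg _).trans (hB i μ t h hμ hX ht)

theorem P_le {M : Model ι Y} {C₀ : ℝ} (hB : Bphi M C₀) {i : ι} {μ t h : ℂ} (hμ : M.k i * μ ^ M.a i = 1)
    (hX : M.X i μ t h ∈ ball (0 : ℂ × ℂ) 2) (ht : ‖Complex.exp t‖ < M.ρ) : ‖M.P i μ t h‖ ≤ C₀ * ‖h‖ := by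
  unfold Atl.P
  rw [norm_mul, mul_comm]
  refine mul_le_mul_of_nonneg_right ?_ (norm_nonneg _)
  have h1 : ‖∫ r in (0 : ℝ)..1, M.phi i μ t (r * h)‖ ≤ C₀ * |1 - 0| := by
    refine intervalIntegral.norm_integral_le_of_norm_le_const fun r hr => ?_
    rw [uIoc_of_le zero_le_one] at hr
    exact hB i μ t (r * h) hμ (X_slice M hμ ht hX ⟨hr.1.le, hr.2⟩) ht
  simpa using h1

end Pool.Agent.EG.RSQ
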