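import Pool.Agent.EG.RSQ.QLinkH

/-!
# EG RSQ QLinkS: two cells in the same chart, and in exchanged charts, quantitative version of `RS/LinkS.lean`
-/

set_option autoImplicit false

open Topology Filter Metric Set

namespace Pool.Agent.EG.RSQ

open Pool.Agent.EG.RS

open Pool.Agent.H14.PP (jac)

variable {ι Y : Type}

private theorem QLinkS_exp_half : Real.exp (1 / 2) ≤ 2 := by
  have h := Real.add_one_le_exp (-(1 / 2 : ℝ))
  rw [Real.exp_neg] at h
  have hp := Real.exp_pos (1 / 2 : ℝ)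
  have h2 : (1 / 2 : ℝ) ≤ (Real.exp (1 / 2))⁻¹ := by linarith
  have h3 := mul_le_mul_of_nonneg_right h2 hp.le
  rw [inv_mul_cancel₀ hp.ne'] at h3
  linarith

/-- near a central point the cell stays in the bidisc of radius `2` -/
private theorem QLinkS_near (M : Model ι Y) (i : ι) {μ t₀ h₁ t h : ℂ} {ε : ℝ} (hc : Cen (M.X i μ t₀ h₁))
    (hε : ε * (1 + M.b i) ≤ 1 / 2) (ht : t ∈ Strip t₀ ε) (hh : h ∈ ball h₁ ε) :
    M.X i μ t h ∈ ball (0 : ℂ × ℂ) 2 := by
  have hε0 : 0 < ε := pos_of_mem_ball hh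
  have hb0 : (0 : ℝ) ≤ M.b i := Nat.cast_nonneg _
  have ha1 : (1 : ℝ) ≤ M.a i := by exact_mod_cast M.a_pos i
  have hε1 : ε ≤ 1 / 2 := by nlinarith
  have h1 : t.re - t₀.re < ε := by have := ht.1; linarith
  have h2 : ‖h - h₁‖ < ε := by rwa [← dist_eq_norm]
  have h3 : |h.re - h₁.re| < ε := by
    have := Complex.abs_re_le_norm (h - h₁)
    rw [Complex.sub_re] at this
    linarith
  rw [mem_ball_zero_iff, Prod.norm_def, max_lt_iff]
  constructor
  · have e1 : ∀ t h : ℂ, ‖(M.X i μ t h).1‖ = ‖μ‖ * Real.exp ((t.re - M.b i * h.re) / M.a i) := by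
      intro t h
      simp only [Atl.X, norm_mul, Complex.norm_exp]
      congr 2
      rw [Complex.div_natCast_re, Complex.sub_re, ← Complex.ofReal_natCast, Complex.re_ofReal_mul]
    have hc1 := hc.1
    rw [e1] at hc1 ⊢
    have e2 : (t.re - M.b i * h.re) / M.a i =
        (t₀.re - M.b i * h₁.re) / M.a i + ((t.re - t₀.re) - M.b i * (h.re - h₁.re)) / M.a i := by ring
    rw [e2, Real.exp_add, ← mul_assoc]
    have h4 : ((t.re - t₀.re) - M.b i * (h.re - h₁.re)) / M.a i ≤ 1 / 2 := by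
      rw [div_le_iff₀ (by linarith)]
      have : -(M.b i * (h.re - h₁.re)) ≤ M.b i * ε := by
        have := (abs_lt.1 h3).1
        nlinarith
      nlinarith
    have h5 : Real.exp (((t.re - t₀.re) - M.b i * (h.re - h₁.re)) / M.a i) ≤ 2 :=
      (Real.exp_le_exp.2 h4).trans QLinkS_exp_half
    have h6 : 0 ≤ ‖μ‖ * Real.exp ((t₀.re - M.b i * h₁.re) / M.a i) := by positivity
    calc _ ≤ ‖μ‖ * Real.exp ((t₀.re - M.b i * h₁.re) / M.a i) * 2 :=
          mul_le_mul_of_nonneg_left h5 h6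
      _ < 2 := by linarith
  · have hc2 := hc.2
    simp only [Atl.X, yb] at hc2 ⊢
    split_ifs at hc2 ⊢ with hb
    · calc ‖h‖ = ‖h₁ + (h - h₁)‖ := by ring_nf
        _ ≤ ‖h₁‖ + ‖h - h₁‖ := norm_add_le _ _
        _ < 2 := by linarith
    · rw [Complex.norm_exp] at hc2 ⊢
      have e2 : h.re = h₁.re + (h.re - h₁.re) := by ring
      rw [e2, Real.exp_add]
      have h5 : Real.exp (h.re - h₁.re) ≤ 2 :=
        (Real.exp_le_exp.2 (by linarith [(abs_lt.1 h3).2])).trans QLinkS_exp_half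
      have := Real.exp_pos (h₁.re)
      have := Real.exp_pos (h.re - h₁.re)
      nlinarith

private theorem QLinkS_jac_id (p : ℂ × ℂ) : jac (fun x => x) p = 1 := by
  simp [jac]

private theorem QLinkS_jac_swap (p : ℂ × ℂ) : jac Prod.swap p = -1 := by
  have h : HasFDerivAt (Prod.swap : ℂ × ℂ → ℂ × ℂ)
      ((ContinuousLinearMap.snd ℂ ℂ ℂ).prod (ContinuousLinearMap.fst ℂ ℂ ℂ)) p :=
    ((ContinuousLinearMap.snd ℂ ℂ ℂ).prod (ContinuousLinearMap.fst ℂ ℂ ℂ)).hasFDerivAt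
  simp [jac, h.fderiv]

theorem link_sameQ (M : Model ι Y) {C₀ : ℝ} (hB : Bphi M C₀) {i : ι} {μ ν t₀ h₀ h₁ : ℂ} {ε : ℝ} (hε : 0 < ε)
    (he : Real.exp (t₀.re + ε) ≤ M.ρ) (hεb : ε * (1 + M.b i) ≤ 1 / 2) (hμ : M.k i * μ ^ M.a i = 1) (hν : M.k i * ν ^ M.a i = 1)
    (hc : Cen (M.X i μ t₀ h₀)) (h : M.X i μ t₀ h₀ = M.X i ν t₀ h₁) : LinkQ M i μ i ν t₀ h₀ h₁ ε (2 * C₀) := by
  have hc' : Cen (M.X i ν t₀ h₁) := h ▸ hc
  have ha : (M.a i : ℂ) ≠ 0 := by
    have := M.a_pos i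
    exact_mod_cast (by omega : M.a i ≠ 0)
  have key : ∀ t h : ℂ, M.X i μ t (h + (h₀ - h₁)) = M.X i ν t h := by
    intro t h'
    have h1 := congrArg Prod.fst h
    have h2 := congrArg Prod.snd h
    simp only [Atl.X, yb] at h1 h2 ⊢
    by_cases hb : M.b i = 0
    · rw [if_pos hb, if_pos hb] at h2
      subst h2
      simp only [hb, Nat.cast_zero, zero_mul, sub_zero, sub_self, add_zero, if_true] at h1 ⊢
      have h3 : μ = ν := mul_right_cancel₀ (Complex.exp_ne_zero _) h1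
      rw [h3]
    · rw [if_neg hb, if_neg hb] at h2
      rw [if_neg hb, if_neg hb]
      refine Prod.ext ?_ ?_
      · show μ * Complex.exp ((t - M.b i * (h' + (h₀ - h₁))) / M.a i) = ν * Complex.exp ((t - M.b i * h') / M.a i)
        have e1 : (t - M.b i * (h' + (h₀ - h₁))) / (M.a i : ℂ) =
            (t₀ - M.b i * h₀) / M.a i + ((t - t₀) - M.b i * (h' - h₁)) / M.a i := by ring
        have e2 : (t - M.b i * h') / (M.a i : ℂ) =
            (t₀ - M.b i * h₁) / M.a i + ((t - t₀) - M.b i * (h' - h₁)) / M.a i := by ring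
        rw [e1, e2, Complex.exp_add, Complex.exp_add, ← mul_assoc, ← mul_assoc, h1]
      · show Complex.exp (h' + (h₀ - h₁)) = Complex.exp h'
        rw [Complex.exp_add, Complex.exp_sub, h2, div_self (Complex.exp_ne_zero _), mul_one]
  refine link_ofQ M hB (ε := ε) (H := fun _ h => h + (h₀ - h₁)) (τ := fun x => x) hμ hν hε he ?_ ?_ ?_ ?_
  · intro t _ h' _
    exact analyticAt_snd.add analyticAt_const
  · ring
  · intro t _
    have e : h₁ + (h₀ - h₁) = h₀ := by ring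
    rw [e]
    nlinarith [norm_nonneg h₀, norm_nonneg (t - t₀)]
  · intro t ht' h' hh'
    have hm := QLinkS_near M i hc' hεb ht' hh'
    refine ⟨hm, hm, analyticAt_id, rfl, ?_, key t h'⟩
    rw [QLinkS_jac_id, mul_one]

theorem link_swapQ (M : Model ι Y) {C₀ : ℝ} (hB : Bphi M C₀) {i j : ι} {μ ν t₀ h₀ h₁ : ℂ} {ε : ℝ} (hε : 0 < ε)
    (he : Real.exp (t₀.re + ε) ≤ M.ρ) (hεb : ε * (1 + M.b j) ≤ 1 / 2) (hs : M.Sw i j) (hμ : M.k i * μ ^ M.a i = 1)
    (hν : M.k j * ν ^ M.a j = 1) (hc' : Cen (M.X j ν t₀ h₁))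
    (h : M.X i μ t₀ h₀ = (M.X j ν t₀ h₁).swap) : LinkQ M i μ j ν t₀ h₀ h₁ ε (2 * C₀) := by
  obtain ⟨hbi, haj, hbj, hkj, hsw⟩ := hs
  have hai := M.a_pos i
  have ha : (M.a i : ℂ) ≠ 0 := by exact_mod_cast (by omega : M.a i ≠ 0)
  have hb : (M.b i : ℂ) ≠ 0 := by exact_mod_cast (by omega : M.b i ≠ 0)
  have hb0 : M.b i ≠ 0 := by omega
  have hb1 : M.b j ≠ 0 := by omega
  have h1 := congrArg Prod.fst h
  have h2 := congrArg Prod.snd h
  simp only [Atl.X, yb, Prod.fst_swap, Prod.snd_swap, if_neg hb0, if_neg hb1] at h1 h2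
  rw [haj, hbj] at h2
  have key : ∀ t h' : ℂ, M.X i μ t (h₀ + ((t - t₀) - M.a i * (h' - h₁)) / M.b i) = (M.X j ν t h').swap := by
    intro t h'
    simp only [Atl.X, yb, Prod.swap_prod_mk, if_neg hb0, if_neg hb1]
    rw [haj, hbj]
    refine Prod.ext ?_ ?_
    · show μ * Complex.exp ((t - M.b i * (h₀ + ((t - t₀) - M.a i * (h' - h₁)) / M.b i)) / M.a i) = Complex.exp h'
      have e1 : (t - M.b i * (h₀ + ((t - t₀) - M.a i * (h' - h₁)) / M.b i)) / (M.a i : ℂ) =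
          (t₀ - M.b i * h₀) / M.a i + (h' - h₁) := by
        field_simp
        ring
      rw [e1, Complex.exp_add, ← mul_assoc, h1, ← Complex.exp_add]
      congr 1
      ring
    · show Complex.exp (h₀ + ((t - t₀) - M.a i * (h' - h₁)) / M.b i) = ν * Complex.exp ((t - M.a i * h') / M.b i)
      rw [Complex.exp_add, h2, mul_assoc, ← Complex.exp_add]
      congr 2
      field_simp
      ring
  refine link_ofQ M hB (ε := ε)
    (H := fun t h' => h₀ + ((t - t₀) - M.a i * (h' - h₁)) / M.b i) (τ := Prod.swap) hμ hν hε he ?_ ?_ ?_ ?_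
  · intro t _ h' _
    have h3 : AnalyticAt ℂ (fun p : ℂ × ℂ => (p.1 - t₀) - M.a i * (p.2 - h₁)) (t, h') :=
      (analyticAt_fst.sub analyticAt_const).sub (analyticAt_const.mul (analyticAt_snd.sub analyticAt_const))
    exact analyticAt_const.add (h3.div analyticAt_const hb)
  · simp
  · intro t _
    have e : h₀ + ((t - t₀) - M.a i * (h₁ - h₁)) / (M.b i : ℂ) = h₀ + (t - t₀) / M.b i := by ring
    rw [e]
    have h3 : ‖(t - t₀) / (M.b i : ℂ)‖ ≤ ‖t - t₀‖ := by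
      rw [norm_div, Complex.norm_natCast]
      exact div_le_self (norm_nonneg _) (by exact_mod_cast hbi)
    have h5 := norm_add_le h₀ ((t - t₀) / (M.b i : ℂ))
    have := norm_nonneg h₀
    have := norm_nonneg (t - t₀)
    linarith
  · intro t ht' h' hh'
    have hm := QLinkS_near M j hc' hεb ht' hh'
    have hm' : (M.X j ν t h').swap ∈ ball (0 : ℂ × ℂ) 2 := by
      rw [mem_ball_zero_iff, Prod.norm_def] at hm ⊢
      rw [Prod.fst_swap, Prod.snd_swap, max_comm]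
      exact hm
    refine ⟨hm, hm', ?_, (hsw _ hm).1, ?_, key t h'⟩
    · exact ((ContinuousLinearMap.snd ℂ ℂ ℂ).prod (ContinuousLinearMap.fst ℂ ℂ ℂ)).analyticAt _
    · rw [QLinkS_jac_swap, (hsw _ hm).2]
      ring

end Pool.Agent.EG.RSQ
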